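import Pool.Agent.H29.LG.Targets

/-!
# MP_c65535_nt, all radicals: the tame case at one prime (row TAM)
-/

set_option autoImplicit false

namespace Pool.Agent.H87.LG

open NumberField Height Finset Polynomial Pool.Agent.H24.RD Pool.Agent.H23.RDD Pool.Agent.H29.RQ
  Pool.Agent.H29.SX Pool.Agent.H29.LG

theorem fixLv {F Ω : Type} [Field F] [Field Ω] [Algebra F Ω] {r : ℕ} {γ : Fin r → F} {N K : ℕ}
    (t : Ω ≃ₐ[F] Ω) (h1 : ∀ z : Ω, z ^ N = 1 → t z = z)
    (h2 : ∀ (z : Ω) (i : Fin r), z ^ K = algebraMap F Ω (γ i) → t z = z) :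
    ∀ z ∈ Lv F Ω γ N K, t z = z := by
  intro z hz
  unfold Lv at hz
  induction hz using IntermediateField.adjoin_induction with
  | mem x hx =>
    rcases hx with hx | ⟨i, hx⟩
    · exact h1 x hx
    · exact h2 x i hx
  | algebraMap x => exact t.commutes x
  | add x y _ _ hx hy => rw [map_add, hx, hy]
  | inv x _ hx => rw [map_inv₀, hx]
  | mul x y _ _ hx hy => rw [map_mul, hx, hy]

theorem stabLv {F Ω : Type} [Field F] [Field Ω] [Algebra F Ω] {r : ℕ} {γ : Fin r → F} {N K : ℕ}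
    (t : Ω ≃ₐ[F] Ω) : ∀ z ∈ Lv F Ω γ N K, t z ∈ Lv F Ω γ N K := by
  intro z hz
  unfold Lv at hz
  induction hz using IntermediateField.adjoin_induction with
  | mem x hx =>
    refine IntermediateField.subset_adjoin F _ ?_
    rcases hx with hx | ⟨i, hx⟩
    · left
      rw [← map_pow, hx, map_one]
    · right
      exact ⟨i, by rw [← map_pow, hx, AlgEquiv.commutes]⟩
  | algebraMap x =>
    rw [AlgEquiv.commutes]
    exact IntermediateField.algebraMap_mem _ x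
  | add x y _ _ hx hy =>
    rw [map_add]
    exact add_mem hx hy
  | inv x _ hx =>
    rw [map_inv₀]
    exact inv_mem hx
  | mul x y _ _ hx hy =>
    rw [map_mul]
    exact mul_mem hx hy

theorem root_mem {F Ω : Type} [Field F] [Field Ω] [Algebra F Ω] {r : ℕ} {γ : Fin r → F} {N K : ℕ}
    {z : Ω} (h : z ^ N = 1) : z ∈ Lv F Ω γ N K :=
  IntermediateField.subset_adjoin F _ (Or.inl h)

theorem kum_mem {F Ω : Type} [Field F] [Field Ω] [Algebra F Ω] {r : ℕ} {γ : Fin r → F} {N K : ℕ}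
    {z : Ω} {i : Fin r} (h : z ^ K = algebraMap F Ω (γ i)) : z ∈ Lv F Ω γ N K :=
  IntermediateField.subset_adjoin F _ (Or.inr ⟨i, h⟩)

theorem pf_TAM (h1 : T_LVB) (h2 : T_VIS) (h3 : T_VCL) (h4 : T_KEL) : T_TAM := by
  intro F Ω _ _ _ _ _ _ _ r γ hγ p hp N K d hN hKN hpK hpN hp2 hd β g hβ hCj hRed hg hh
  have hpp : p.Prime := hp.1
  have hK : 0 < K := Nat.pos_of_dvd_of_pos hKN hN
  obtain ⟨N', hN'⟩ := hpN
  have hN'p : N / p = N' := by
    rw [hN']
    exact Nat.mul_div_cancel_left _ hpp.pos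
  have hN'0 : 0 < N' := by
    rcases Nat.eq_zero_or_pos N' with h | h
    · rw [h, mul_zero] at hN'
      omega
    · exact h
  have hpN' : ¬ p ∣ N' := by
    rintro ⟨c, hc⟩
    apply hp2
    exact ⟨c, by rw [hN', hc]; ring⟩
  have hcop : Nat.Coprime p N' := (Nat.Prime.coprime_iff_not_dvd hpp).2 hpN'
  have hKN' : K ∣ N' := by
    have hc : Nat.Coprime K p := ((Nat.Prime.coprime_iff_not_dvd hpp).2 hpK).symm
    exact hc.dvd_of_dvd_mul_left (hN' ▸ hKN)
  obtain ⟨hfd, -, ⟨ζ0, hζ0⟩, -, -, -⟩ := h1 F Ω r γ hγ N K hN hK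
  obtain ⟨-, -, -, -, -, hmon⟩ := h1 F Ω r γ hγ N' K hN'0 hK
  have hEE : Lv F Ω γ N' K ≤ Lv F Ω γ N K :=
    hmon N K ⟨p, by rw [hN']; ring⟩ dvd_rfl hKN hN
  obtain ⟨hv1, hv2, -, hv4⟩ := h3 F Ω r γ hγ p hpp N K hN hKN hpK ⟨N', hN'⟩
  have hvis := h2 F Ω r γ hγ p hp N K hN hKN hpK ⟨N', hN'⟩
  rw [hN'p] at hv1 hv2 hv4 hvis ⊢
  obtain ⟨hg0, i, hi, x, hx⟩ := id hg
  have hga : ∃ (i : ℕ) (a : F), 0 < i ∧ g ^ i = algebraMap F Ω a ∧
      ∀ w : FinitePlace F, w.1 (p : F) < 1 → w.1 a = 1 := by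
    refine ⟨i, ∏ i, γ i ^ x i, hi, by rw [hx, map_prod]; simp only [map_zpow₀], fun w hw => ?_⟩
    rw [map_prod]
    refine Finset.prod_eq_one fun l _ => ?_
    rw [map_zpow₀, (hp.2 w hw).2 l, one_zpow]
  obtain ⟨B, hB1, hB2, hB3, hB4⟩ := h4 F Ω p hpp (Lv F Ω γ N' K) (Lv F Ω γ N K) hEE hfd stabLv
    stabLv hv2 (fun σ hσ τ _ z hz => hv4 σ hσ τ z hz) hvis d β g hd hβ hg0 hCj hRed hga
  have hbd : ((B.relIndex (Lv F Ω γ N' K).fixingSubgroup : ℝ) - 1) * Real.log p ≤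
      2 * Real.log (d * p) + 1 := by
    linarith [hB4, hh]
  by_cases hall : ∀ t ∈ B, ∀ z ∈ Lv F Ω γ N K, t z = z
  · refine ⟨1, B, one_pow _, hB1, hB2, hbd, fun τ hτ => ⟨AlgEquiv.refl, fun z hz => ?_, ?_⟩⟩
    · rw [hall τ hτ z hz]
      rfl
    · rfl
  · push Not at hall
    obtain ⟨t0, ht0, z0, hz0, hne⟩ := hall
    have ht0f : ∀ z ∈ Lv F Ω γ N' K, t0 z = z :=
      (IntermediateField.mem_fixingSubgroup_iff _ _).1 (hB2 ht0)
    -- the root of unity
    set ζ : Ω := (ζ0 : Ω) with hζd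
    have hζ : IsPrimitiveRoot ζ N :=
      hζ0.map_of_injective (f := (Lv F Ω γ N K).val) Subtype.val_injective
    obtain ⟨ω, hω⟩ : ∃ ω : Ω, ω = ζ ^ N' := ⟨_, rfl⟩
    have hωp : IsPrimitiveRoot ω p := by
      rw [hω]
      exact hζ.pow hN (by rw [hN']; ring)
    have hωne : t0 ω ≠ ω := by
      intro hcon
      apply hne
      have hζf : t0 ζ = ζ := by
        have e1 : t0 (ζ ^ p) = ζ ^ p := by
          refine ht0f _ (root_mem ?_)
          rw [← pow_mul, ← hN', hζ.pow_eq_one]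
        have e2 := Nat.gcd_eq_gcd_ab p N'
        rw [hcop] at e2
        have hζ0' : ζ ≠ 0 := hζ.ne_zero hN.ne'
        have e3 : ζ = (ζ ^ p) ^ (Nat.gcdA p N') * (ω) ^ (Nat.gcdB p N') := by
          rw [hω, ← zpow_natCast ζ p, ← zpow_natCast ζ N', ← zpow_mul, ← zpow_mul,
            ← zpow_add₀ hζ0', ← e2]
          simp
        rw [e3, map_mul, map_zpow₀, map_zpow₀, e1, hcon]
      refine fixLv t0 (fun z hz => ?_) (fun z i hz => ht0f z (kum_mem hz)) z0 hz0
      have : NeZero N := ⟨hN.ne'⟩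
      obtain ⟨k, -, hk⟩ := hζ.eq_pow_of_pow_eq_one hz
      rw [← hk, map_pow, hζf]
    have : NeZero p := ⟨hpp.ne_zero⟩
    have : Fact p.Prime := ⟨hpp⟩
    have hroot : ∀ z : Ω, z ^ p = 1 → ∃ k : ℕ, z = ω ^ k := by
      intro z hz
      obtain ⟨k, -, hk⟩ := hωp.eq_pow_of_pow_eq_one hz
      exact ⟨k, hk.symm⟩
    have hpE : ∀ z : Ω, z ^ p = 1 → z ∈ Lv F Ω γ N K := by
      intro z hz
      refine root_mem ?_
      rw [hN', pow_mul, hz, one_pow]
    obtain ⟨a, ha⟩ := hroot (t0 ω) (by rw [← map_pow, hωp.pow_eq_one, map_one])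
    have heq : ∀ m n : ℕ, ω ^ m = ω ^ n ↔ (m : ZMod p) = (n : ZMod p) := by
      intro m n
      have hω0 : ω ≠ 0 := hωp.ne_zero hpp.ne_zero
      have e1 : ω ^ m = ω ^ n ↔ ω ^ ((m : ℤ) - (n : ℤ)) = 1 := by
        rw [zpow_sub₀ hω0, zpow_natCast, zpow_natCast, div_eq_one_iff_eq (pow_ne_zero _ hω0)]
      rw [e1, hωp.zpow_eq_one_iff_dvd, ← ZMod.intCast_zmod_eq_zero_iff_dvd]
      push_cast
      rw [sub_eq_zero]
    have ha1 : (a : ZMod p) - 1 ≠ 0 := by
      intro hcon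
      apply hωne
      rw [ha]
      have := (heq a 1).2 (by rw [Nat.cast_one]; exact sub_eq_zero.1 hcon)
      rwa [pow_one] at this
    obtain ⟨t0', ht0E, ht0β⟩ := hB3 t0 ht0
    have hβp : β ^ p ≠ 0 := pow_ne_zero _ hβ
    obtain ⟨e, he⟩ := hroot (t0' β / β) (by rw [div_pow, ht0β, div_self hβp])
    have he' : t0' β = ω ^ e * β := by
      rw [← he, div_mul_cancel₀ _ hβ]
    -- the choice of `η`
    set j : ℕ := (-(e : ZMod p) / ((a : ZMod p) - 1)).val with hj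
    have hjc : (j : ZMod p) = -(e : ZMod p) / ((a : ZMod p) - 1) := by
      rw [hj, ZMod.natCast_zmod_val]
    set η : Ω := ω ^ j with hη
    have hηp : η ^ p = 1 := by
      rw [hη, ← pow_mul, mul_comm, pow_mul, hωp.pow_eq_one, one_pow]
    have hηE : η ∈ Lv F Ω γ N K := hpE η hηp
    have hη0 : η ≠ 0 := by
      intro h
      rw [h, zero_pow hpp.ne_zero] at hηp
      exact zero_ne_one hηp
    have ht0η : t0' (β * η) = β * η := by
      rw [map_mul, ht0E η hηE, he', hη, map_pow, ha, ← pow_mul, mul_right_comm, ← pow_add]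
      have : ω ^ (e + a * j) = ω ^ j := by
        rw [heq]
        push_cast
        rw [hjc]
        field_simp
        ring
      rw [this, mul_comm]
    have hβη : β * η ≠ 0 := mul_ne_zero hβ hη0
    refine ⟨η, B, hηp, hB1, hB2, hbd, fun τ hτ => ?_⟩
    obtain ⟨τ', hτE, hτβ⟩ := hB3 τ hτ
    refine ⟨τ', hτE, ?_⟩
    have hτp : (τ' (β * η) / (β * η)) ^ p = 1 := by
      rw [div_pow, mul_pow, map_mul, mul_pow, hτβ, ← map_pow τ' η, hηp, map_one,
        div_self (mul_ne_zero hβp one_ne_zero)]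
    obtain ⟨f, hf⟩ := hroot _ hτp
    have hτ1 : τ' (β * η) = ω ^ f * (β * η) := by
      rw [← hf, div_mul_cancel₀ _ hβη]
    have hρE : ω ^ f ∈ Lv F Ω γ N K := hpE _ (by
      rw [← pow_mul, mul_comm, pow_mul, hωp.pow_eq_one, one_pow])
    -- the commutator
    have hcomm : ∀ z ∈ Lv F Ω γ N K, τ' (t0' z) = t0' (τ' z) := by
      intro z hz
      rw [ht0E z hz, hτE z hz, hτE _ (stabLv t0 z hz), ht0E _ (stabLv τ z hz)]
      exact (hv4 t0 (hB2 ht0) τ z hz).symm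
    set κ : Ω ≃ₐ[F] Ω := (t0' * τ')⁻¹ * (τ' * t0') with hκ
    have hκs : ∀ z : Ω, t0' (τ' (κ z)) = τ' (t0' z) := by
      intro z
      have : (t0' * τ') * κ = τ' * t0' := by
        rw [hκ, ← mul_assoc, mul_inv_cancel, one_mul]
      calc t0' (τ' (κ z)) = ((t0' * τ') * κ) z := rfl
        _ = (τ' * t0') z := by rw [this]
        _ = τ' (t0' z) := rfl
    have hκE : ∀ z ∈ Lv F Ω γ N K, κ z = z := by
      intro z hz
      apply τ'.injective
      apply t0'.injective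
      rw [hκs, hcomm z hz]
    have e1 : τ' (t0' (β * η)) = ω ^ f * (β * η) := by
      rw [ht0η, hτ1]
    have e2 : t0' (τ' (β * η)) = t0 (ω ^ f) * (β * η) := by
      rw [hτ1, map_mul, ht0E _ hρE, ht0η]
    have e3 : (κ β) ^ p = β ^ p := by
      have e4 : (κ (β * η)) ^ p = (β * η) ^ p := by
        apply τ'.injective
        apply t0'.injective
        have hl : t0' (τ' ((κ (β * η)) ^ p)) = (ω ^ f * (β * η)) ^ p := by
          rw [map_pow, map_pow, hκs, e1]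
        have hr : t0' (τ' ((β * η) ^ p)) = (t0 (ω ^ f) * (β * η)) ^ p := by
          rw [map_pow, map_pow, e2]
        have h5 : (ω ^ f) ^ p = 1 := by
          rw [← pow_mul, mul_comm, pow_mul, hωp.pow_eq_one, one_pow]
        have h6 : (t0 (ω ^ f)) ^ p = 1 := by
          rw [← map_pow, h5, map_one]
        rw [hl, hr, mul_pow _ (β * η), mul_pow (t0 (ω ^ f)), h5, h6]
      rw [map_mul, mul_pow, mul_pow, hκE η hηE, hηp, mul_one, mul_one] at e4
      exact e4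
    have e5 : κ β = β := hRed κ hκE p hpp.pos e3
    have e6 : ω ^ f = t0 (ω ^ f) := by
      have e7 : κ (β * η) = β * η := by rw [map_mul, e5, hκE η hηE]
      have e8 := hκs (β * η)
      rw [e7, e1, e2] at e8
      exact (mul_right_cancel₀ hβη e8).symm
    have e9 : ω ^ f = 1 := by
      rw [map_pow, ha, ← pow_mul, heq] at e6
      push_cast at e6
      have e10 : (f : ZMod p) * ((a : ZMod p) - 1) = 0 := by
        linear_combination -e6
      have e11 : (f : ZMod p) = 0 := (mul_eq_zero.1 e10).resolve_right ha1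
      have := (heq f 0).2 (by rw [e11, Nat.cast_zero])
      rwa [pow_zero] at this
    rw [hτ1, e9, one_mul]

end Pool.Agent.H87.LG
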